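import Pool.Agent.H19.OM.Stm

/-!
# Project OM (helper19), module PAD (helper97): additivity of Poisson variables
-/

set_option autoImplicit false

namespace Pool.Agent.H97.OM

open MeasureTheory ProbabilityTheory
open scoped NNReal
open Pool.Agent.H19.OM

theorem t_PAD : S_PAD := by
  intro a b k φ hφ
  unfold P
  set μ : Measure (Fin k → ℕ) := Measure.pi (fun _ : Fin k => poissonMeasure a) with hμ
  set ν : Measure (Fin k → ℕ) := Measure.pi (fun _ : Fin k => poissonMeasure b) with hν
  have hm : Measurable fun z : (Fin k → ℕ) × (Fin k → ℕ) => z.1 + z.2 := by fun_prop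
  have hφm : Measurable φ := measurable_of_countable φ
  have hint : Integrable (fun z : (Fin k → ℕ) × (Fin k → ℕ) => φ (z.1 + z.2)) (μ.prod ν) := by
    refine Integrable.of_bound (hφm.comp hm).aestronglyMeasurable 1 (Filter.Eventually.of_forall fun z => ?_)
    rw [Real.norm_eq_abs]
    exact hφ _
  have h1 : ∫ w, ∫ v, φ (w + v) ∂ν ∂μ = ∫ z, φ (z.1 + z.2) ∂(μ.prod ν) := (integral_prod _ hint).symm
  have h2 : ∫ z, φ (z.1 + z.2) ∂(μ.prod ν) = ∫ y, φ y ∂((μ.prod ν).map fun z => z.1 + z.2) :=
    (integral_map hm.aemeasurable hφm.aestronglyMeasurable).symm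
  rw [h1, h2]
  congr 1
  have h3 := (measurePreserving_arrowProdEquivProdArrow ℕ ℕ (Fin k) (fun _ => poissonMeasure a)
    (fun _ => poissonMeasure b)).map_eq
  rw [hμ, hν, ← h3, Measure.map_map hm (MeasurableEquiv.measurable _)]
  have h4 : ((fun z : (Fin k → ℕ) × (Fin k → ℕ) => z.1 + z.2) ∘ (MeasurableEquiv.arrowProdEquivProdArrow ℕ ℕ (Fin k))) =
      fun (x : Fin k → ℕ × ℕ) i => (fun y : ℕ × ℕ => y.1 + y.2) (x i) := rfl
  have hs : ∀ _ : Fin k, SigmaFinite (((poissonMeasure a).prod (poissonMeasure b)).map (fun y : ℕ × ℕ => y.1 + y.2)) := by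
    intro _
    have : IsProbabilityMeasure (((poissonMeasure a).prod (poissonMeasure b)).map (fun y : ℕ × ℕ => y.1 + y.2)) :=
      Measure.isProbabilityMeasure_map (measurable_of_countable _).aemeasurable
    infer_instance
  rw [h4, Measure.pi_map_pi (hμ := hs) (fun _ => (measurable_of_countable _).aemeasurable)]
  congr 1
  funext _
  exact poissonMeasure_conv_poissonMeasure a b

end Pool.Agent.H97.OM
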